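import Pool.Agent.H398R3.HilbMain

/-!
# The polynomial numerical indices of complex Hilbert spaces

For every complex Hilbert space `H` with `dim H ≥ 2` and every `k ≥ 2`, the `k`-th polynomial
numerical index of `H` is the square root of `k ^ k / (k + 1) ^ (k + 1)`.
-/

open scoped ComplexConjugate InnerProductSpace

namespace Pool.Agent.Results.MP_8db9bd_an.HilbertIndex

section Definitions

variable {X : Type*} [NormedAddCommGroup X] [NormedSpace ℂ X]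

/-- The norm of the `k`-homogeneous polynomial `x ↦ A (x, …, x)` given by the bounded
`k`-linear map `A`: the supremum of `‖A (x, …, x)‖` over the unit sphere. -/
noncomputable def polyNorm {k : ℕ} (A : ContinuousMultilinearMap ℂ (fun _ : Fin k => X) X) : ℝ :=
  sSup {r : ℝ | ∃ x : X, ‖x‖ = 1 ∧ r = ‖A (fun _ => x)‖}

/-- The numerical radius of the `k`-homogeneous polynomial `x ↦ A (x, …, x)`: the supremum of
`|f (A (x, …, x))|` over all `x`, `f` of norm one with `f x = 1`. -/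
noncomputable def numRadius {k : ℕ} (A : ContinuousMultilinearMap ℂ (fun _ : Fin k => X) X) : ℝ :=
  sSup {r : ℝ | ∃ (x : X) (f : X →L[ℂ] ℂ), ‖x‖ = 1 ∧ ‖f‖ = 1 ∧ f x = 1 ∧
    r = ‖f (A (fun _ => x))‖}

variable (X) in
/-- The `k`-th polynomial numerical index of `X`: the infimum of the numerical radii of the
`k`-homogeneous polynomials of norm one. -/
noncomputable def polyIndex (k : ℕ) : ℝ :=
  sInf {r : ℝ | ∃ A : ContinuousMultilinearMap ℂ (fun _ : Fin k => X) X,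
    polyNorm A = 1 ∧ r = numRadius A}

end Definitions

section General

variable {X : Type*} [NormedAddCommGroup X] [NormedSpace ℂ X] {k : ℕ}

lemma apply_le (A : ContinuousMultilinearMap ℂ (fun _ : Fin k => X) X) {x : X} (hx : ‖x‖ = 1) :
    ‖A (fun _ => x)‖ ≤ ‖A‖ := by
  have := A.le_opNorm (fun _ => x)
  simpa [hx] using this

lemma polyNorm_bdd (A : ContinuousMultilinearMap ℂ (fun _ : Fin k => X) X) :
    BddAbove {r : ℝ | ∃ x : X, ‖x‖ = 1 ∧ r = ‖A (fun _ => x)‖} := by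
  refine ⟨‖A‖, ?_⟩
  rintro _ ⟨x, hx, rfl⟩
  exact apply_le A hx

lemma numRadius_bdd (A : ContinuousMultilinearMap ℂ (fun _ : Fin k => X) X) :
    BddAbove {r : ℝ | ∃ (x : X) (f : X →L[ℂ] ℂ), ‖x‖ = 1 ∧ ‖f‖ = 1 ∧ f x = 1 ∧
      r = ‖f (A (fun _ => x))‖} := by
  refine ⟨‖A‖, ?_⟩
  rintro _ ⟨x, f, hx, hf, _, rfl⟩
  calc ‖f (A (fun _ => x))‖ ≤ ‖f‖ * ‖A (fun _ => x)‖ := f.le_opNorm _
    _ = ‖A (fun _ => x)‖ := by rw [hf, one_mul]
    _ ≤ ‖A‖ := apply_le A hx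

lemma numRadius_nonneg (A : ContinuousMultilinearMap ℂ (fun _ : Fin k => X) X) :
    0 ≤ numRadius A := by
  apply Real.sSup_nonneg
  rintro _ ⟨x, f, _, _, _, rfl⟩
  exact norm_nonneg _

lemma le_numRadius (A : ContinuousMultilinearMap ℂ (fun _ : Fin k => X) X) {x : X}
    {f : X →L[ℂ] ℂ} (hx : ‖x‖ = 1) (hf : ‖f‖ = 1) (hfx : f x = 1) :
    ‖f (A (fun _ => x))‖ ≤ numRadius A :=
  le_csSup (numRadius_bdd A) ⟨x, f, hx, hf, hfx, rfl⟩

lemma index_bddBelow :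
    BddBelow {r : ℝ | ∃ A : ContinuousMultilinearMap ℂ (fun _ : Fin k => X) X,
      polyNorm A = 1 ∧ r = numRadius A} := by
  refine ⟨0, ?_⟩
  rintro _ ⟨A, _, rfl⟩
  exact numRadius_nonneg A

end General

section HilbertSpace

variable {H : Type*} [NormedAddCommGroup H] [InnerProductSpace ℂ H] {k : ℕ}

lemma le_numRadius_inner (A : ContinuousMultilinearMap ℂ (fun _ : Fin k => H) H) {x : H}
    (hx : ‖x‖ = 1) : ‖⟪x, A (fun _ => x)⟫_ℂ‖ ≤ numRadius A := by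
  have h := le_numRadius A (f := innerSL ℂ x) hx (by rw [innerSL_apply_norm, hx])
    (by rw [innerSL_apply_apply, inner_self_eq_norm_sq_to_K, hx]; simp)
  simpa using h

/-- In a Hilbert space the only state at a unit vector `x` is `y ↦ ⟪x, y⟫`. -/
lemma functional_eq [CompleteSpace H] {x : H} {f : H →L[ℂ] ℂ} (hx : ‖x‖ = 1) (hf : ‖f‖ = 1)
    (hfx : f x = 1) (y : H) : f y = ⟪x, y⟫_ℂ := by
  obtain ⟨w, hw⟩ := (InnerProductSpace.toDual ℂ H).surjective f
  have hwf : ∀ y, f y = ⟪w, y⟫_ℂ := fun y => by rw [← hw]; rfl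
  have hwn : ‖w‖ = 1 := by
    rw [← (InnerProductSpace.toDual ℂ H).norm_map w, hw, hf]
  have h1 : ⟪w, x⟫_ℂ = 1 := by rw [← hwf, hfx]
  have h2 : w = x := (inner_eq_one_iff_of_norm_eq_one hwn hx).1 h1
  rw [hwf, h2]

lemma numRadius_le [CompleteSpace H] (A : ContinuousMultilinearMap ℂ (fun _ : Fin k => H) H)
    {c : ℝ} (hc : 0 ≤ c) (h : ∀ x : H, ‖x‖ = 1 → ‖⟪x, A (fun _ => x)⟫_ℂ‖ ≤ c) :
    numRadius A ≤ c := by
  apply Real.sSup_le _ hc
  rintro _ ⟨x, f, hx, hf, hfx, rfl⟩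
  rw [functional_eq hx hf hfx]
  exact h x hx

/-- Weighted arithmetic-geometric mean inequality in the needed form. -/
lemma amgm (hk : 1 ≤ k) {x y : ℝ} (hx : 0 ≤ x) (hy : 0 ≤ y) (hxy : x + y ≤ 1) :
    x ^ k * y ≤ (k : ℝ) ^ k / ((k : ℝ) + 1) ^ (k + 1) := by
  have hk0 : (0 : ℝ) < k := by exact_mod_cast hk
  have h := Real.geom_mean_le_arith_mean2_weighted (w₁ := (k : ℝ) / (k + 1))
    (w₂ := 1 / ((k : ℝ) + 1)) (p₁ := x * (k + 1) / k) (p₂ := y * (k + 1)) (by positivity)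
    (by positivity) (by positivity) (by positivity) (by field_simp)
  have h1 : (k : ℝ) / (k + 1) * (x * (k + 1) / k) + 1 / ((k : ℝ) + 1) * (y * (k + 1)) = x + y := by
    field_simp
  rw [h1] at h
  have h2 := pow_le_pow_left₀ (by positivity) (h.trans hxy) (k + 1)
  rw [mul_pow, one_pow, ← Real.rpow_natCast, ← Real.rpow_mul (by positivity),
    ← Real.rpow_natCast, ← Real.rpow_mul (by positivity)] at h2
  have h3 : (k : ℝ) / (k + 1) * ((k + 1 : ℕ) : ℝ) = k := by push_cast; field_simp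
  have h4 : 1 / ((k : ℝ) + 1) * ((k + 1 : ℕ) : ℝ) = 1 := by push_cast; field_simp
  rw [h3, h4, Real.rpow_natCast, Real.rpow_one] at h2
  rw [le_div_iff₀ (by positivity)]
  have h5 : (x * (k + 1) / k) ^ k * (y * (k + 1)) * (k : ℝ) ^ k =
      x ^ k * y * ((k : ℝ) + 1) ^ (k + 1) := by
    rw [div_pow, mul_pow, pow_succ]
    field_simp
  calc x ^ k * y * ((k : ℝ) + 1) ^ (k + 1) = (x * (k + 1) / k) ^ k * (y * (k + 1)) * (k : ℝ) ^ k :=
        h5.symm
    _ ≤ 1 * (k : ℝ) ^ k := by gcongr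
    _ = _ := one_mul _

/-- The multilinear map `(x₁, …, x_k) ↦ (∏ ⟪e, x_i⟫) • f`. -/
noncomputable def rankOne (k : ℕ) (e f : H) : ContinuousMultilinearMap ℂ (fun _ : Fin k => H) H :=
  ((ContinuousMultilinearMap.mkPiAlgebra ℂ (Fin k) ℂ).compContinuousLinearMap
    (fun _ => innerSL ℂ e)).smulRight f

lemma rankOne_apply (e f x : H) : rankOne k e f (fun _ => x) = (⟪e, x⟫_ℂ) ^ k • f := by
  simp [rankOne]

lemma rankOne_polyNorm {e f : H} (he : ‖e‖ = 1) (hf : ‖f‖ = 1) : polyNorm (rankOne k e f) = 1 := by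
  apply le_antisymm
  · apply Real.sSup_le _ zero_le_one
    rintro _ ⟨x, hx, rfl⟩
    rw [rankOne_apply, norm_smul, hf, mul_one, norm_pow]
    apply pow_le_one₀ (norm_nonneg _)
    calc ‖⟪e, x⟫_ℂ‖ ≤ ‖e‖ * ‖x‖ := norm_inner_le_norm _ _
      _ = 1 := by rw [he, hx, one_mul]
  · apply le_csSup (polyNorm_bdd _)
    refine ⟨e, he, ?_⟩
    rw [rankOne_apply, norm_smul, hf, mul_one, norm_pow, inner_self_eq_norm_sq_to_K, he]
    simp

lemma upper [CompleteSpace H] (hk : 1 ≤ k) {e f : H} (he : ‖e‖ = 1) (hf : ‖f‖ = 1)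
    (hef : ⟪e, f⟫_ℂ = 0) :
    polyIndex H k ≤ √((k : ℝ) ^ k / ((k : ℝ) + 1) ^ (k + 1)) := by
  refine (csInf_le index_bddBelow ⟨rankOne k e f, rankOne_polyNorm he hf, rfl⟩).trans ?_
  apply numRadius_le _ (Real.sqrt_nonneg _)
  intro x hx
  apply Real.le_sqrt_of_sq_le
  rw [rankOne_apply, inner_smul_right, norm_mul, norm_pow, mul_pow, ← pow_mul, mul_comm k 2,
    pow_mul]
  apply amgm hk (by positivity) (by positivity)
  have horth : Orthonormal ℂ ![e, f] := by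
    rw [orthonormal_iff_ite]
    intro i j
    have hfe : ⟪f, e⟫_ℂ = 0 := by rw [← inner_conj_symm, hef, map_zero]
    fin_cases i <;> fin_cases j <;>
      simp [hef, hfe, inner_self_eq_norm_sq_to_K, he, hf]
  have hb := horth.sum_inner_products_le x (s := Finset.univ)
  rw [Fin.sum_univ_two, hx] at hb
  simp only [Matrix.cons_val_zero, Matrix.cons_val_one] at hb
  rw [norm_inner_symm x f]
  linarith

/-- For `dim H ≥ 2` every pair `u, w` with `‖u‖ = 1` lies in the span of an orthonormal pair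
`u, g`. -/
lemma exists_second (hdim : Module.rank ℂ H ≠ 1) {u : H} (hu : ‖u‖ = 1) (w : H) :
    ∃ g : H, ‖g‖ = 1 ∧ ⟪u, g⟫_ℂ = 0 ∧ w = ⟪u, w⟫_ℂ • u + ⟪g, w⟫_ℂ • g := by
  have huu : ⟪u, u⟫_ℂ = 1 := by rw [inner_self_eq_norm_sq_to_K, hu]; simp
  have hproj : ∀ y : H, ⟪u, y - ⟪u, y⟫_ℂ • u⟫_ℂ = 0 := by
    intro y
    rw [inner_sub_right, inner_smul_right, huu, mul_one, sub_self]
  -- normalization of a nonzero vector orthogonal to `u`
  have hnorm : ∀ y : H, y ≠ 0 → ⟪u, y⟫_ℂ = 0 →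
      ‖((‖y‖ : ℂ)⁻¹ • y)‖ = 1 ∧ ⟪u, (‖y‖ : ℂ)⁻¹ • y⟫_ℂ = 0 := by
    intro y hy hy0
    constructor
    · rw [norm_smul, norm_inv, Complex.norm_real, norm_norm]
      exact inv_mul_cancel₀ (norm_ne_zero_iff.2 hy)
    · rw [inner_smul_right, hy0, mul_zero]
  by_cases hw : w - ⟪u, w⟫_ℂ • u = 0
  · -- pick any vector outside the span of `u`
    obtain ⟨y, hy⟩ : ∃ y : H, y - ⟪u, y⟫_ℂ • u ≠ 0 := by
      by_contra hcon
      push Not at hcon
      apply hdim
      apply le_antisymm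
      · exact rank_le_one_iff.2 ⟨u, fun y => ⟨⟪u, y⟫_ℂ, (sub_eq_zero.1 (hcon y)).symm⟩⟩
      · rw [Cardinal.one_le_iff_pos]
        have : Nontrivial H := ⟨⟨u, 0, fun h => by rw [h, norm_zero] at hu; norm_num at hu⟩⟩
        exact rank_pos
    obtain ⟨h1, h2⟩ := hnorm _ hy (hproj y)
    refine ⟨_, h1, h2, ?_⟩
    have hw' : w = ⟪u, w⟫_ℂ • u := sub_eq_zero.1 hw
    set g := (‖y - ⟪u, y⟫_ℂ • u‖ : ℂ)⁻¹ • (y - ⟪u, y⟫_ℂ • u) with hg
    have h3 : ⟪g, w⟫_ℂ = 0 := by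
      rw [hw', inner_smul_right, inner_eq_zero_symm.1 h2, mul_zero]
    rw [h3, zero_smul, add_zero]
    exact hw'
  · set y := w - ⟪u, w⟫_ℂ • u with hy
    obtain ⟨h1, h2⟩ := hnorm y hw (hproj w)
    refine ⟨_, h1, h2, ?_⟩
    have hyn : (‖y‖ : ℂ) ≠ 0 := by exact_mod_cast norm_ne_zero_iff.2 hw
    have hyu : ⟪y, u⟫_ℂ = 0 := inner_eq_zero_symm.1 (hproj w)
    have h3 : ⟪(‖y‖ : ℂ)⁻¹ • y, w⟫_ℂ • ((‖y‖ : ℂ)⁻¹ • y) = y := by
      have h4 : w = y + ⟪u, w⟫_ℂ • u := by rw [hy]; abel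
      have h5 : ⟪y, w⟫_ℂ = (‖y‖ : ℂ) ^ 2 := by
        conv_lhs => rw [h4]
        rw [inner_add_right, inner_smul_right, inner_self_eq_norm_sq_to_K, hyu, mul_zero, add_zero]
        rfl
      rw [inner_smul_left, h5, smul_smul, map_inv₀, Complex.conj_ofReal]
      have h6 : (‖y‖ : ℂ)⁻¹ * (‖y‖ : ℂ) ^ 2 * (‖y‖ : ℂ)⁻¹ = 1 := by field_simp
      rw [h6, one_smul]
    rw [h3, hy]
    abel

lemma lower (hk : 2 ≤ k) (hdim : Module.rank ℂ H ≠ 1)
    (A : ContinuousMultilinearMap ℂ (fun _ : Fin k => H) H) (hA : polyNorm A = 1) :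
    √((k : ℝ) ^ k / ((k : ℝ) + 1) ^ (k + 1)) ≤ numRadius A := by
  have hv0 := numRadius_nonneg A
  have hkap : (k : ℝ) ^ k / ((k : ℝ) + 1) ^ (k + 1) = Pool.Agent.H398R3.Hilb.kap2 k := rfl
  rw [hkap]
  have hkp := Pool.Agent.H398R3.Hilb.kap2_pos (k := k) (by omega)
  have hsq : 0 < √(Pool.Agent.H398R3.Hilb.kap2 k) := Real.sqrt_pos.2 hkp
  have hpt : ∀ u : H, ‖u‖ = 1 →
      ‖A (fun _ => u)‖ ≤ numRadius A / √(Pool.Agent.H398R3.Hilb.kap2 k) := by
    intro u hu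
    obtain ⟨g, hg, hug, hw⟩ := exists_second hdim hu (A (fun _ => u))
    have h1 := Pool.Agent.H398R3.Hilb.lower_aux hk A (v := numRadius A)
      (fun x hx => le_numRadius_inner A hx) hu hg hug
    have h2 : ‖A (fun _ => u)‖ ^ 2 =
        ‖⟪u, A (fun _ => u)⟫_ℂ‖ ^ 2 + ‖⟪g, A (fun _ => u)⟫_ℂ‖ ^ 2 := by
      have h3 := norm_add_sq_eq_norm_sq_add_norm_sq_of_inner_eq_zero
        (⟪u, A (fun _ => u)⟫_ℂ • u) (⟪g, A (fun _ => u)⟫_ℂ • g) (by
          rw [inner_smul_left, inner_smul_right, hug]; simp)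
      rw [← hw, norm_smul, norm_smul, hu, hg, mul_one, mul_one] at h3
      nlinarith
    rw [← h2] at h1
    rw [le_div_iff₀ hsq]
    apply le_of_sq_le_sq _ hv0
    rw [mul_pow, Real.sq_sqrt hkp.le]
    linarith
  have h4 : polyNorm A ≤ numRadius A / √(Pool.Agent.H398R3.Hilb.kap2 k) := by
    apply Real.sSup_le
    · rintro _ ⟨x, hx, rfl⟩
      exact hpt x hx
    · positivity
  rw [hA, le_div_iff₀ hsq, one_mul] at h4
  exact h4

lemma one_dim [CompleteSpace H] (hdim : Module.rank ℂ H = 1) :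
    polyIndex H k = 1 := by
  have hnt : Nontrivial H := rank_pos_iff_nontrivial.1 (by rw [hdim]; exact one_pos)
  obtain ⟨u, hu⟩ := exists_norm_eq H (c := 1) zero_le_one
  obtain ⟨v₀, hv₀⟩ := rank_le_one_iff.1 hdim.le
  have huu : ⟪u, u⟫_ℂ = 1 := by rw [inner_self_eq_norm_sq_to_K, hu]; simp
  -- in dimension one the Cauchy-Schwarz inequality is an equality
  have hcs : ∀ x y : H, ‖x‖ = 1 → ‖⟪x, y⟫_ℂ‖ = ‖y‖ := by
    intro x y hx
    obtain ⟨a, ha⟩ := hv₀ x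
    obtain ⟨b, hb⟩ := hv₀ y
    have ha0 : a ≠ 0 := by
      rintro rfl
      rw [zero_smul] at ha
      rw [← ha, norm_zero] at hx
      norm_num at hx
    have hy : y = (b * a⁻¹) • x := by
      rw [← ha, smul_smul, mul_assoc, inv_mul_cancel₀ ha0, mul_one, hb]
    rw [hy, inner_smul_right, inner_self_eq_norm_sq_to_K, hx, norm_mul, norm_smul, hx]
    simp
  have hrad : ∀ A : ContinuousMultilinearMap ℂ (fun _ : Fin k => H) H,
      numRadius A = polyNorm A := by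
    intro A
    apply le_antisymm
    · apply numRadius_le
      · apply Real.sSup_nonneg
        rintro _ ⟨x, _, rfl⟩
        exact norm_nonneg _
      · intro x hx
        rw [hcs x _ hx]
        exact le_csSup (polyNorm_bdd A) ⟨x, hx, rfl⟩
    · apply Real.sSup_le _ (numRadius_nonneg A)
      rintro _ ⟨x, hx, rfl⟩
      rw [← hcs x _ hx]
      exact le_numRadius_inner A hx
  have hset : {r : ℝ | ∃ A : ContinuousMultilinearMap ℂ (fun _ : Fin k => H) H,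
      polyNorm A = 1 ∧ r = numRadius A} = {1} := by
    ext r
    constructor
    · rintro ⟨A, hA, rfl⟩
      rw [hrad, hA]
      rfl
    · rintro rfl
      exact ⟨rankOne k u u, rankOne_polyNorm hu hu, by rw [hrad, rankOne_polyNorm hu hu]⟩
  rw [polyIndex, hset, csInf_singleton]

end HilbertSpace

/-- For every nonzero complex Hilbert space `H` and every `k ≥ 2`, the `k`-th polynomial numerical
index of `H` equals `1` if `dim H = 1` and the square root of `k ^ k / (k + 1) ^ (k + 1)`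
otherwise. -/
theorem result (H : Type*) [NormedAddCommGroup H] [InnerProductSpace ℂ H] [CompleteSpace H]
    [Nontrivial H] (k : ℕ) (hk : 2 ≤ k) :
    (Module.rank ℂ H = 1 → polyIndex H k = 1) ∧
    (Module.rank ℂ H ≠ 1 → polyIndex H k = √((k : ℝ) ^ k / ((k : ℝ) + 1) ^ (k + 1))) := by
  refine ⟨one_dim, fun hdim => le_antisymm ?_ ?_⟩
  · obtain ⟨u, hu⟩ := exists_norm_eq H (c := 1) zero_le_one
    obtain ⟨g, hg, hug, -⟩ := exists_second hdim hu 0
    exact upper (by omega) hu hg hug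
  · obtain ⟨u, hu⟩ := exists_norm_eq H (c := 1) zero_le_one
    obtain ⟨g, hg, hug, -⟩ := exists_second hdim hu 0
    refine le_csInf ⟨_, rankOne k u g, rankOne_polyNorm hu hg, rfl⟩ ?_
    rintro _ ⟨A, hA, rfl⟩
    exact lower hk hdim A hA

end Pool.Agent.Results.MP_8db9bd_an.HilbertIndex
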